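import Pool.Agent.H.MP_3c9300_gt.C

open Set MeasureTheory Function
open scoped ENNReal

namespace Pool.Agent.Results.MP_3c9300_gt.Holds

/-- The `|S|`-dimensional volume of the section `K ∩ (x + H_S)`: the coordinates in `S` vary,
the other coordinates are those of `x`. -/
noncomputable def sec {n : ℕ} (K : Set (Fin n → ℝ)) (S : Finset (Fin n)) (x : Fin n → ℝ) : ℝ :=
  (volume {y : S → ℝ | (fun i => if h : i ∈ S then y ⟨i, h⟩ else x i) ∈ K}).toReal

open Pool.Agent.H.MP_3c9300_gt

variable {n : ℕ} {K : Set (Fin n → ℝ)}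

noncomputable def F (K : Set (Fin n → ℝ)) (S : Finset (Fin n)) : (Fin n → ℝ) → ℝ≥0∞ :=
  lmarginal (fun _ => volume) S (K.indicator 1)

lemma F_eq (hK : MeasurableSet K) (S : Finset (Fin n)) (x : Fin n → ℝ) :
    F K S x = volume {y : S → ℝ | updateFinset x S y ∈ K} :=
  lintegral_indicator_one (measurable_updateFinset hK)

lemma sec_eq (hK : MeasurableSet K) (S : Finset (Fin n)) (x : Fin n → ℝ) :
    sec K S x = (F K S x).toReal := by rw [F_eq hK]; rfl

lemma F_fin (hK : IsCompact K) (S : Finset (Fin n)) : ⨆ x, F K S x ≠ ⊤ := by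
  obtain ⟨R, R0, hR⟩ := hK.isBounded.exists_pos_norm_le
  refine ne_top_of_le_ne_top (measure_closedBall_lt_top (μ := volume) (x := (0 : S → ℝ))
    (r := R)).ne (iSup_le fun x => ?_)
  rw [F_eq hK.measurableSet]
  refine measure_mono fun y hy => ?_
  rw [mem_closedBall_zero_iff, pi_norm_le_iff_of_nonneg R0.le]
  intro i
  simpa [updateFinset] using (norm_le_pi_norm _ i.1).trans (hR _ hy)

lemma F_lc (hc : Convex ℝ K) (hK : MeasurableSet K) (S : Finset (Fin n)) (x y : Fin n → ℝ)
    (α β : ℝ) (ha : 0 < α) (hb : 0 < β) (hab : α + β = 1) :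
    F K S x ^ α * F K S y ^ β ≤ F K S (α • x + β • y) := by
  have m : Measurable (K.indicator (1 : (Fin n → ℝ) → ℝ≥0∞)) := measurable_one.indicator hK
  have := rbl (J := Fin 2) ![α, β] (by intro j; fin_cases j <;> simpa) (fun _ => K.indicator 1)
    (fun _ => m) (K.indicator 1) m S (fun _ => S) (fun _ => le_rfl)
    (fun i hi => by simp [hi, hab]) ![x, y] (α • x + β • y) fun u z u1 z1 z2 => by
      have e : z = α • u 0 + β • u 1 := by
        funext i
        by_cases hi : i ∈ S
        · simp [z2 i hi, hi]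
        · simp [z1 i hi, u1 _ i hi]
      by_cases h0 : u 0 ∈ K
      · by_cases h1 : u 1 ∈ K
        · simp [h0, h1, e, hc h0 h1 ha.le hb.le hab]
        · simp [h1, hb]
      · simp [h0, ha]
  simpa [F] using this

theorem result (n : ℕ) (K : Set (Fin n → ℝ)) (hc : Convex ℝ K) (hk : IsCompact K)
    (hi : (interior K).Nonempty) (σ : Finset (Fin n)) (_hσ : σ ≠ Finset.univ) (m s : ℕ)
    (_hm : 1 ≤ m) (_hs : 1 ≤ s) (σs : Fin m → Finset (Fin n)) (h1 : ∀ j, σs j ⊆ σ)
    (h2 : ∀ i ∈ σ, (Finset.univ.filter fun j => i ∈ σs j).card = s) :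
    (∏ j, ((σ.card - (σs j).card).factorial : ℝ)) / (σ.card.factorial : ℝ) ^ ((m : ℤ) - s) *
        ∏ j, sec K (σs j)ᶜ 0 ≤
      (volume K).toReal ^ ((m : ℤ) - s) * (⨆ x, sec K σᶜ x) ^ s := by
  have hK := hk.measurableSet
  have mK : Measurable (K.indicator (1 : (Fin n → ℝ) → ℝ≥0∞)) := measurable_one.indicator hK
  have V0 : volume K ≠ 0 := (Measure.measure_pos_of_nonempty_interior _ hi).ne'
  have V1 : volume K ≠ ⊤ := hk.measure_lt_top.ne
  have V2 := ENNReal.toReal_pos V0 V1
  have FU : ∀ x, F K Finset.univ x = volume K := fun x => by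
    rw [F, lmarginal_univ]; exact lintegral_indicator_one hK
  simp only [sec_eq hK]
  rcases σ.eq_empty_or_nonempty with rfl | hne
  · simp only [Finset.subset_empty.1 (h1 _), Finset.compl_empty, FU, ciSup_const,
      Finset.card_empty, Finset.prod_const, Finset.card_univ, Fintype.card_fin]
    rw [← zpow_natCast _ s, ← zpow_add₀ V2.ne']
    simp
  have fin : ∀ S x, F K S x ≠ ⊤ := fun S x => ne_top_of_le_ne_top (F_fin hk S) (le_iSup _ x)
  rw [← ENNReal.toReal_iSup (fin _)]
  set M := ⨆ x, F K σᶜ x with hM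
  have M1 : M ≠ ⊤ := F_fin hk _
  have mF : Measurable (F K σᶜ) := mK.lmarginal _
  have un : ∀ τ ⊆ σ, lmarginal (fun _ => volume) τ (fun x => M⁻¹ * F K σᶜ x) 0 =
      M⁻¹ * F K (τ ∪ σᶜ) 0 := fun τ hτ => by
    rw [F, F, lmarginal_union _ _ mK (Finset.disjoint_of_subset_left hτ disjoint_compl_right)]
    exact lintegral_const_mul _ (mF.comp measurable_updateFinset)
  have M0 : M ≠ 0 := by
    intro h0
    apply V0
    rw [← FU 0, ← Finset.union_compl σ, F, lmarginal_union _ _ mK disjoint_compl_right]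
    have : lmarginal (fun _ => volume) σᶜ (K.indicator 1) = fun _ => 0 :=
      funext (ENNReal.iSup_eq_zero.1 h0)
    rw [this]
    simp [lmarginal]
  obtain ⟨R, R0, hR⟩ := hk.isBounded.exists_pos_norm_le
  have G : Good (fun x => M⁻¹ * F K σᶜ x) σ R := by
    refine ⟨mF.const_mul _, fun x => ?_, fun x y α β ha hb hab => ?_, R0, fun x hx i hi => ?_, hne⟩
    · exact (mul_le_mul_right (le_iSup _ x) _).trans_eq (ENNReal.inv_mul_cancel M0 M1)
    · rw [ENNReal.mul_rpow_of_nonneg _ _ ha.le, ENNReal.mul_rpow_of_nonneg _ _ hb.le,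
        mul_mul_mul_comm, ← ENNReal.rpow_add_of_nonneg _ _ ha.le hb.le, hab, ENNReal.rpow_one]
      exact mul_le_mul_right (F_lc hc hK _ x y α β ha hb hab) _
    · have := right_ne_zero_of_mul hx
      rw [F_eq hK] at this
      obtain ⟨y, hy⟩ := nonempty_of_measure_ne_zero this
      simpa [updateFinset, hi] using (norm_le_pi_norm _ i).trans (hR _ hy)
  obtain ⟨i0, hi0⟩ := hne
  obtain ⟨k, hk'⟩ : ∃ k, m = k + s := by
    have := Finset.card_filter_le Finset.univ fun j => i0 ∈ σs j
    rw [h2 i0 hi0, Finset.card_univ, Fintype.card_fin] at this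
    exact ⟨m - s, by omega⟩
  have := G.main (fun j => σ \ σs j) (fun j => Finset.sdiff_subset) k fun i hi => by
    have := Finset.card_filter_add_card_filter_not (s := Finset.univ) fun j => i ∈ σs j
    rw [h2 i hi, Finset.card_univ, Fintype.card_fin] at this
    simp only [Finset.mem_sdiff, hi, true_and]
    omega
  have e : ∀ j, σ \ σs j ∪ σᶜ = (σs j)ᶜ := fun j => by
    ext i
    have := @h1 j i
    simp only [Finset.mem_union, Finset.mem_sdiff, Finset.mem_compl]
    tauto
  simp only [un _ Finset.sdiff_subset, un _ le_rfl, e, Finset.union_compl, FU,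
    Finset.card_sdiff_of_subset (h1 _)] at this
  have := ENNReal.toReal_mono (ENNReal.pow_ne_top (ENNReal.mul_ne_top (by simp)
    (ENNReal.mul_ne_top (ENNReal.inv_ne_top.2 M0) V1))) this
  simp only [ENNReal.toReal_prod, ENNReal.toReal_mul, ENNReal.toReal_pow, ENNReal.toReal_inv,
    ENNReal.toReal_natCast, Finset.prod_mul_distrib, Finset.prod_const, Finset.card_univ,
    Fintype.card_fin] at this
  have M2 := ENNReal.toReal_pos M0 M1
  have z : (m : ℤ) - s = k := by omega
  have d0 : (0 : ℝ) < σ.card.factorial := by positivity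
  rw [z, zpow_natCast, zpow_natCast, div_mul_eq_mul_div, div_le_iff₀ (by positivity)]
  have := mul_le_mul_of_nonneg_right this (pow_pos M2 m).le
  convert this using 1
  · simp only [inv_pow]; field_simp
  · rw [hk']; simp only [mul_pow, inv_pow, pow_add]; field_simp

end Pool.Agent.Results.MP_3c9300_gt.Holds
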